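import Pool.Agent.Lib.MP_802513_ag.SDDefs

/-!
# The lattice of an abelian variety with complex multiplication has rank one
-/

set_option autoImplicit false

noncomputable section

open Module Pool.Agent.Lib.MP_802513_ag

namespace TCM

/-- The elements of the lattice are the images of one of them, if the rank is one. -/
theorem rank_one {V : Type*} [AddCommGroup V] [Module ℂ V] {L : AddSubgroup V} (hL : IsLattice L) {E : Type*}
    [Field E] [NumberField E] {ι : E →+* Module.End ℂ V} (h : HasAction L ι 1) {v : V} (hv : v ∈ L) (hv0 : v ≠ 0)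
    {x : V} (hx : x ∈ L) : ∃ e : E, ι e v = x := by
  obtain ⟨b, hb⟩ := hL
  have hR : Module.Finite ℝ V := by
    by_contra h0
    have h1 : finrank ℝ V = 0 := finrank_of_not_finite h0
    have h2 : IsEmpty (Fin (finrank ℝ V)) := by
      rw [h1]
      exact Fin.isEmpty
    exact h0 (Module.Finite.of_basis b)
  have hC : Module.Finite ℂ V := Module.Finite.of_restrictScalars_finite ℝ ℂ V
  letI : Module ℚ V := Module.compHom V (algebraMap ℚ ℝ)
  haveI : IsScalarTower ℚ ℝ V := ⟨fun q r w => by
    show (q • r) • w = (algebraMap ℚ ℝ q) • (r • w)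
    rw [Algebra.smul_def, mul_smul]⟩
  let f0 : E →+ V :=
    { toFun := fun e => ι e v
      map_zero' := by rw [map_zero, LinearMap.zero_apply]
      map_add' := fun a c => by rw [map_add, LinearMap.add_apply] }
  let f : E →ₗ[ℚ] V := f0.toRatLinearMap
  have hf : ∀ e, f e = ι e v := fun _ => rfl
  have hinj : Function.Injective f := by
    rw [injective_iff_map_eq_zero]
    intro e he
    by_contra h0
    rw [hf] at he
    apply hv0
    have h1 : ι e⁻¹ (ι e v) = v := by
      have h2 : (ι e⁻¹ * ι e) v = v := by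
        rw [← map_mul, inv_mul_cancel₀ h0, map_one]
        rfl
      exact h2
    rw [← h1, he, map_zero]
  -- the rational span of the lattice
  have hbl : ∀ l, b l ∈ L := fun l => by
    rw [hb]
    exact AddSubgroup.subset_closure ⟨l, rfl⟩
  let Λ : Submodule ℚ V := Submodule.span ℚ (Set.range b)
  have hLΛ : ∀ w ∈ L, w ∈ Λ := by
    intro w hw
    rw [hb] at hw
    induction hw using AddSubgroup.closure_induction with
    | mem w hw => exact Submodule.subset_span hw
    | zero => exact Λ.zero_mem
    | add a c _ _ ha hc => exact Λ.add_mem ha hc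
    | neg a _ ha => exact Λ.neg_mem ha
  have hli : LinearIndependent ℚ b := b.linearIndependent.restrict_scalars (by
    intro a c hac
    have h1 : (algebraMap ℚ ℝ a) = algebraMap ℚ ℝ c := by
      simpa [Algebra.smul_def] using hac
    exact (algebraMap ℚ ℝ).injective h1)
  have hΛ : finrank ℚ Λ = finrank ℝ V := by
    rw [finrank_span_eq_card hli, Fintype.card_fin]
  have hΛf : Module.Finite ℚ Λ := Module.Finite.span_of_finite ℚ (Set.finite_range b)
  have hle : LinearMap.range f ≤ Λ := by
    rintro _ ⟨e, rfl⟩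
    obtain ⟨k, hk, hke⟩ := h.rational e
    have h1 : k • ι e v ∈ Λ := hLΛ _ (hke v hv)
    have h2 : f e = (k : ℚ)⁻¹ • (k • ι e v) := by
      rw [hf, ← Nat.cast_smul_eq_nsmul ℚ k (ι e v), smul_smul, inv_mul_cancel₀ (Nat.cast_ne_zero.2 hk), one_smul]
    rw [h2]
    exact Λ.smul_mem _ h1
  have hfr : finrank ℚ (LinearMap.range f) = finrank ℚ Λ := by
    rw [LinearMap.finrank_range_of_inj hinj, hΛ, finrank_real_of_complex, ← h.finrank_eq, one_mul]
  have heq : LinearMap.range f = Λ := Submodule.eq_of_le_of_finrank_eq hle hfr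
  have hxr : x ∈ LinearMap.range f := by
    rw [heq]
    exact hLΛ x hx
  obtain ⟨e, he⟩ := hxr
  exact ⟨e, he⟩

/-- The lattice has an element `≠ 0`, if the rank is one. -/
theorem exists_ne {V : Type*} [AddCommGroup V] [Module ℂ V] {L : AddSubgroup V} (hL : IsLattice L) {E : Type*}
    [Field E] [NumberField E] {ι : E →+* Module.End ℂ V} (h : HasAction L ι 1) : ∃ v ∈ L, v ≠ 0 := by
  obtain ⟨b, hb⟩ := hL
  have h1 : 0 < finrank ℝ V := by
    rw [finrank_real_of_complex, ← h.finrank_eq, one_mul]
    exact finrank_pos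
  refine ⟨b ⟨0, h1⟩, ?_, b.ne_zero _⟩
  rw [hb]
  exact AddSubgroup.subset_closure ⟨_, rfl⟩

end TCM
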