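import Pool.Agent.Lib.MP_021685_agTCM.TD
import Pool.Agent.Lib.MP_021685_agTCM.CT1
import Pool.Agent.Lib.MP_021685_agTCM.CT2
import Pool.Agent.Lib.MP_802513_agAL.QSt

/-!
# The Tate conjecture for abelian varieties with complex multiplication, over number fields
-/

set_option autoImplicit false

noncomputable section

open Module Pool.Agent.Lib.MP_802513_ag MP_802513_agC MP_802513_agAL MP_021685_agC
open scoped TensorProduct

namespace TCM

/-- The rational endomorphisms of a product of abelian varieties with complex multiplication. -/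
theorem cm_data {T : Type} [Finite T] {E : T → Type} [∀ t, Field (E t)] [∀ t, NumberField (E t)] (A : T → AV)
    (ι : ∀ t, E t →+* (A t).End) (h : ∀ t, HasAction (A t).L (ι t) 1) (n : T → ℕ) :
    ∃ (S : Set ((HIA.prodPow A n).V →ₗ[ℂ] (HIA.prodPow A n).V)) (v : (HIA.prodPow A n).L),
      (∀ F ∈ S, ∀ w ∈ (HIA.prodPow A n).L, F w ∈ (HIA.prodPow A n).L) ∧
      (∀ F ∈ S, ∀ F' ∈ S, F ∘ₗ F' = F' ∘ₗ F) ∧
      ∀ x ∈ (HIA.prodPow A n).L, ∃ m : ℕ, m ≠ 0 ∧ ∃ F ∈ S, F (v : (HIA.prodPow A n).V) = m • x := by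
  classical
  have := Fintype.ofFinite (Σ t, Fin (n t))
  choose u hu hu0 using fun t => exists_ne (A t).isAV.lattice (h t)
  refine ⟨{F | (∀ w ∈ (HIA.prodPow A n).L, F w ∈ (HIA.prodPow A n).L) ∧
      ∃ e : ∀ j : (Σ t, Fin (n t)), E j.1, ∀ w j, F w j = ι j.1 (e j) (w j)}, ⟨fun j => u j.1, fun j _ => hu j.1⟩,
    fun F hF => hF.1, ?_, ?_⟩
  · rintro F ⟨-, e, he⟩ F' ⟨-, e', he'⟩
    refine LinearMap.ext fun w => funext fun j => ?_
    show F (F' w) j = F' (F w) j
    rw [he, he', he', he]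
    show (ι j.1 (e j) * ι j.1 (e' j)) (w j) = (ι j.1 (e' j) * ι j.1 (e j)) (w j)
    rw [← map_mul, mul_comm, map_mul]
  · intro x hx
    have h1 : ∀ j : (Σ t, Fin (n t)), ∃ e : E j.1, ι j.1 e (u j.1) = x j := fun j =>
      rank_one (A j.1).isAV.lattice (h j.1) (hu j.1) (hu0 j.1) (hx j trivial)
    choose e he using h1
    choose k hk hkL using fun j => (h j.1).rational (e j)
    refine ⟨∏ j, k j, Finset.prod_ne_zero_iff.2 fun j _ => hk j,
      LinearMap.pi fun j => (∏ l, k l) • (ι j.1 (e j) ∘ₗ LinearMap.proj j), ⟨?_, fun j => ((∏ l, k l : ℕ) : E j.1) * e j, ?_⟩, ?_⟩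
    · intro w hw j _
      show (∏ l, k l) • ι j.1 (e j) (w j) ∈ (A j.1).L
      rw [← Finset.mul_prod_erase Finset.univ k (Finset.mem_univ j), mul_comm, mul_smul]
      exact (A j.1).L.nsmul_mem (hkL j _ (hw j trivial)) _
    · intro w j
      show (∏ l, k l) • ι j.1 (e j) (w j) = ι j.1 (((∏ l, k l : ℕ) : E j.1) * e j) (w j)
      rw [map_mul, map_natCast, Module.End.mul_apply, Module.End.natCast_apply]
    · funext j
      show (∏ l, k l) • ι j.1 (e j) (u j.1) = (∏ l, k l) • x j
      rw [he]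

/-- The Galois data as Galois data in the sense of `MP_021685_agV`. -/
theorem isGalois {X : AV} (G : Gal X) : Pool.Agent.Lib.MP_021685_agV.IsGaloisLie X.L G.γ G.c :=
  { lie := G.lie
    hodge := G.hodge
    divisor := G.divisor
    semisimple := G.semisimple
    sen := fun τ => by
      obtain ⟨h, h1, h2⟩ := G.sen τ
      exact ⟨h, h1, h2⟩ }

/-- For abelian varieties with complex multiplication the Tate classes are combinations of Hodge classes. -/
theorem tate_hodge {T : Type} [Finite T] {E : T → Type} [∀ t, Field (E t)] [∀ t, NumberField (E t)] (A : T → AV)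
    (ι : ∀ t, E t →+* (A t).End) (h : ∀ t, HasAction (A t).L (ι t) 1) (n : T → ℕ) (G : Gal (HIA.prodPow A n)) :
    G.AllTate (hodge (HIA.prodPow A n)) := by
  obtain ⟨S, v, h1, h2, h3⟩ := cm_data A ι h n
  have key : Pool.Agent.Lib.MP_021685_agV.TateAreHodge G.γ G.c :=
    tate_cm (HIA.prodPow A n).isAV (isGalois G) S h1 h2 v h3
  exact key

/-- The Hodge classes on the powers of the products of powers are algebraic. -/
theorem alg_pow {T : Type} [Finite T] {A : T → AV} (hA : HIA.Hodge A) (n : T → ℕ) (m i : ℕ)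
    (η : ((HIA.prodPow A n).pow m).Cl i) (hη : ((HIA.prodPow A n).pow m).IsHodge η) :
    Alg ((HIA.prodPow A n).pow m) i η := by
  let n' : T → ℕ := fun t => m * n t
  let f : (HIA.prodPow A n').V →ₗ[ℂ] ((HIA.prodPow A n).pow m).V :=
    { toFun := fun w a j => w ⟨j.1, finProdFinEquiv (a, j.2)⟩
      map_add' := fun _ _ => rfl
      map_smul' := fun _ _ => rfl }
  let g : ((HIA.prodPow A n).pow m).V →ₗ[ℂ] (HIA.prodPow A n').V :=
    { toFun := fun w j => w (finProdFinEquiv.symm j.2).1 ⟨j.1, (finProdFinEquiv.symm j.2).2⟩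
      map_add' := fun _ _ => rfl
      map_smul' := fun _ _ => rfl }
  have hf : ∀ w ∈ (HIA.prodPow A n').L, f w ∈ ((HIA.prodPow A n).pow m).L := fun w hw a _ j _ =>
    hw ⟨j.1, finProdFinEquiv (a, j.2)⟩ trivial
  have hg : ∀ w ∈ ((HIA.prodPow A n).pow m).L, g w ∈ (HIA.prodPow A n').L := fun w hw j _ =>
    hw (finProdFinEquiv.symm j.2).1 trivial ⟨j.1, (finProdFinEquiv.symm j.2).2⟩ trivial
  have hfg : ∀ w, f (g w) = w := by
    intro w
    funext a j
    show w (finProdFinEquiv.symm (finProdFinEquiv (a, j.2))).1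
      ⟨j.1, (finProdFinEquiv.symm (finProdFinEquiv (a, j.2))).2⟩ = w a j
    rw [Equiv.symm_apply_apply]
  let ξ : (HIA.prodPow A n').Cl i := η.compLinearMap (f.restrictScalars ℝ)
  have hξ : (HIA.prodPow A n').IsHodge ξ := by
    refine ⟨fun v hv => hη.1 _ fun s => hf _ (hv s), fun z v => ?_⟩
    have h1 := hη.2 z (fun s => f (v s))
    show η (fun s => f (z • v s)) = _
    simp only [map_smul]
    exact h1
  refine alg_stable.pull ((HIA.prodPow A n).pow m) (HIA.prodPow A n') g hg i ξ η (hA n' i ξ hξ) fun v => ?_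
  show η v = η fun s => f (g (v s))
  simp only [hfg]

/-- The Hodge conjecture for the products of powers implies the Tate conjecture over number fields, for abelian varieties
with complex multiplication. -/
theorem tate_of_hodge {T : Type} [Finite T] {E : T → Type} [∀ t, Field (E t)] [∀ t, NumberField (E t)] (A : T → AV)
    (ι : ∀ t, E t →+* (A t).End) (h : ∀ t, HasAction (A t).L (ι t) 1) (hA : HIA.Hodge A) : Tate A := by
  intro n G m i θ hθ
  refine Submodule.span_mono ?_ (tate_hodge A ι h n G m i θ hθ)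
  rintro ξ ⟨η, h1, h2⟩
  exact ⟨η, alg_pow hA n m i η h1, h2⟩

end TCM
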