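import Pool.Agent.Lib.MP_021685_agTCM.CT5
import Pool.Agent.Lib.MP_802513_agC.Conv

/-!
# The Tate conjecture for the products with abelian varieties with complex multiplication
-/

set_option autoImplicit false
set_option linter.unusedSectionVars false

noncomputable section

open Matrix Function Module Pool.Agent.Lib.MP_802513_ag Pool.Agent.Lib.MP_021685_agV MP_802513_agC MP_802513_agAL
  MP_021685_agC
open scoped TensorProduct

namespace TCM

/-! ### The transport to isomorphic abelian varieties -/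

section iso

variable {V W : Type} [AddCommGroup V] [Module ℂ V] [AddCommGroup W] [Module ℂ W]
  {L : AddSubgroup V} {M : AddSubgroup W} {γ : HSpace M} {c : HEnd M → ℂ}

/-- All the forms on the trivial abelian variety are combinations of Hodge classes. -/
theorem tate_trivial [Subsingleton W] (hX : IsAbelianVariety M) : TateAreHodge γ c := by
  obtain ⟨γ', c', h1, h2⟩ := MP_021685_agX.exists_mumford_tate hX
  intro n i θ _
  refine h2 n i θ fun x _ v => ?_
  have hH : Subsingleton (ℂ ⊗[ℤ] M) := by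
    have hM : Subsingleton M := inferInstance
    refine ⟨fun x y => ?_⟩
    have h0 : ∀ z : ℂ ⊗[ℤ] M, z = 0 := by
      intro z
      induction z using TensorProduct.induction_on with
      | zero => rfl
      | tmul a b => rw [Subsingleton.elim b 0, TensorProduct.tmul_zero]
      | add a b ha hb => rw [ha, hb, add_zero]
    rw [h0 x, h0 y]
  rcases Nat.eq_zero_or_pos i with rfl | hi
  · have : IsEmpty (Fin (2 * 0)) := (inferInstance : IsEmpty (Fin 0))
    rw [Finset.univ_eq_empty, Finset.sum_empty, Nat.cast_zero, zero_mul, zero_mul]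
  · have h3 : ∀ w : Fin (2 * i) → Fin n → ℂ ⊗[ℤ] M, θ w = 0 := fun w =>
      θ.map_coord_zero ⟨0, by omega⟩ (Subsingleton.elim _ _)
    rw [Finset.sum_eq_zero fun s _ => h3 _, h3, mul_zero]

/-- The transport of the Mumford-Tate conjecture. -/
theorem tate_iso (hA : IsAbelianVariety L) (hX : IsAbelianVariety M) (hγ : IsGaloisLie M γ c)
    (j : V →ₗ[ℂ] W) (hj : ∀ v ∈ L, j v ∈ M) (q : W →ₗ[ℂ] V) (hq : ∀ w ∈ M, q w ∈ L) (hqj : ∀ v, q (j v) = v)
    (hjq : ∀ w, j (q w) = w)
    (h : ∀ (γ' : HSpace L) (c' : HEnd L → ℂ), IsGaloisLie L γ' c' → TateAreHodge γ' c') : TateAreHodge γ c := by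
  rcases subsingleton_or_nontrivial V with hV | hV
  · have hW : Subsingleton W := ⟨fun x y => by rw [← hjq x, ← hjq y, Subsingleton.elim (q x) (q y)]⟩
    exact tate_trivial hX
  · intro n i θ hθ
    have h1 := MP_021685_agX.res_galois (j := j) (hj := hj) (q := q) (hq := hq) hqj hA hX hγ
    have h2 : MP_021685_agX.pullH (MP_021685_agX.homH q hq)
        (MP_021685_agX.pullH (MP_021685_agX.homH j hj) θ) = θ := by
      rw [MP_021685_agX.pull_pull, MP_021685_agX.homH_qj (j := q) (hj := hq) (q := j) (hq := hj) hjq,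
        MP_021685_agX.pull_id]
    have h3 := (MP_021685_agX.isTate_pull (j := j) (hj := hj) (q := q) (hq := hq) hqj hA hX hγ
      (MP_021685_agX.pullH (MP_021685_agX.homH j hj) θ)).2 (by rw [h2]; exact hθ)
    have h4 := MP_021685_agX.pull_comb q hq (h _ _ h1 n i _ h3)
    rw [h2] at h4
    exact h4

end iso

/-! ### Hodge classes -/

/-- If the Tate classes are combinations of classes of a stable system then they are combinations of Hodge classes. -/
theorem hodge_of_comb {C : Sys} (hC : IsStable C) {B : AV} {G : Gal B} (h : G.AllTate (onPow C B)) :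
    G.AllTate (hodge B) := by
  intro n i θ hθ
  refine Submodule.span_mono ?_ (h n i θ hθ)
  rintro ξ ⟨η, h1, h2⟩
  exact ⟨η, (hC.fam B).hodge n i η h1, h2⟩

/-- The pull-back of a class of a stable system to an isomorphic abelian variety. -/
theorem sys_iso {C : Sys} (hC : IsStable C) {X Y : AV} (f : X.V →ₗ[ℂ] Y.V) (hf : ∀ w ∈ X.L, f w ∈ Y.L)
    (g : Y.V →ₗ[ℂ] X.V) (hg : ∀ w ∈ Y.L, g w ∈ X.L) (hgf : ∀ w, g (f w) = w) {i : ℕ}
    (h : ∀ ξ : Y.Cl i, Y.IsHodge ξ → C Y i ξ) {η : X.Cl i} (hη : X.IsHodge η) : C X i η := by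
  let ξ : Y.Cl i := η.compLinearMap (g.restrictScalars ℝ)
  have hξ : Y.IsHodge ξ := by
    refine ⟨fun v hv => hη.1 _ fun s => hg _ (hv s), fun z v => ?_⟩
    have h1 := hη.2 z (fun s => g (v s))
    show η (fun s => g (z • v s)) = _
    simp only [map_smul]
    exact h1
  refine hC.pull X Y f hf i ξ η (h ξ hξ) fun v => ?_
  show η v = η fun s => g (f (v s))
  simp only [hgf]

/-- Galois data for which the Tate classes are combinations of Hodge classes (the Mumford-Tate data). -/
theorem exists_gal (A : AV) : ∃ G : Gal A, G.AllTate (hodge A) := by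
  obtain ⟨γ, c, h, h2⟩ := MP_021685_agX.exists_mumford_tate A.isAV
  exact ⟨{ γ := γ
           c := c
           lie := h.lie
           hodge := h.hodge
           divisor := h.divisor
           semisimple := h.semisimple
           sen := fun τ => by
             obtain ⟨e, h1, h2⟩ := h.sen τ
             exact ⟨e, h1, h2⟩ }, h2⟩

/-- The Tate conjecture implies the Hodge conjecture. -/
theorem hodge_of_tate {J : Type} [Finite J] {B : J → AV} (hB : Tate B) : HIA.Hodge B := by
  intro m i η hη
  obtain ⟨G, -⟩ := exists_gal (HIA.prodPow B m)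
  have h1 : ∀ k (ω : ((HIA.prodPow B m).pow k).Cl i), ((HIA.prodPow B m).pow k).IsHodge ω →
      Alg ((HIA.prodPow B m).pow k) i ω := by
    intro k ω hω
    have h2 : ω ∈ toFam (onPow Alg (HIA.prodPow B m)) (alg_stable.fam _) k i :=
      hodge_mem_of_tate (γ := G.γ) (c := G.c) (HIA.prodPow B m).isAV (toFam_stable (alg_stable.fam _)).isHodge
        G.hodge (fun θ hθ => hB m G k i θ hθ) hω
    exact h2
  refine sys_iso alg_stable (Y := (HIA.prodPow B m).pow 1) (LinearMap.pi fun _ => LinearMap.id)
    (fun w hw _ _ => hw) (LinearMap.proj 0) (fun w hw => hw 0 trivial) (fun w => rfl) (h1 1) hη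

/-! ### Products of two families -/

section sum

variable {T J : Type} (A : T → AV) (B : J → AV) (n : T ⊕ J → ℕ)

/-- The products of powers of the abelian varieties of both families. -/
def sumJ [Finite T] [Finite J] : ((HIA.prodPow B fun s => n (Sum.inr s)).prod (HIA.prodPow A fun t => n (Sum.inl t))).V →ₗ[ℂ]
    (HIA.prodPow (Sum.elim A B) n).V where
  toFun w j := match j with
    | ⟨Sum.inl t, a⟩ => w.2 ⟨t, a⟩
    | ⟨Sum.inr s, a⟩ => w.1 ⟨s, a⟩
  map_add' w w' := by
    funext j
    rcases j with ⟨t | s, a⟩ <;> rfl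
  map_smul' z w := by
    funext j
    rcases j with ⟨t | s, a⟩ <;> rfl

/-- The inverse. -/
def sumQ [Finite T] [Finite J] : (HIA.prodPow (Sum.elim A B) n).V →ₗ[ℂ]
    ((HIA.prodPow B fun s => n (Sum.inr s)).prod (HIA.prodPow A fun t => n (Sum.inl t))).V where
  toFun w := (fun j => w ⟨Sum.inr j.1, j.2⟩, fun j => w ⟨Sum.inl j.1, j.2⟩)
  map_add' _ _ := rfl
  map_smul' _ _ := rfl

variable [Finite T] [Finite J]

theorem sumJ_mem (w : ((HIA.prodPow B fun s => n (Sum.inr s)).prod (HIA.prodPow A fun t => n (Sum.inl t))).V)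
    (hw : w ∈ ((HIA.prodPow B fun s => n (Sum.inr s)).prod (HIA.prodPow A fun t => n (Sum.inl t))).L) :
    sumJ A B n w ∈ (HIA.prodPow (Sum.elim A B) n).L := by
  rintro ⟨t | s, a⟩ -
  · exact hw.2 ⟨t, a⟩ trivial
  · exact hw.1 ⟨s, a⟩ trivial

theorem sumQ_mem (w : (HIA.prodPow (Sum.elim A B) n).V) (hw : w ∈ (HIA.prodPow (Sum.elim A B) n).L) :
    sumQ A B n w ∈ ((HIA.prodPow B fun s => n (Sum.inr s)).prod (HIA.prodPow A fun t => n (Sum.inl t))).L :=
  ⟨fun j _ => hw ⟨Sum.inr j.1, j.2⟩ trivial, fun j _ => hw ⟨Sum.inl j.1, j.2⟩ trivial⟩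

theorem sumQJ (w : ((HIA.prodPow B fun s => n (Sum.inr s)).prod (HIA.prodPow A fun t => n (Sum.inl t))).V) :
    sumQ A B n (sumJ A B n w) = w := rfl

theorem sumJQ (w : (HIA.prodPow (Sum.elim A B) n).V) : sumJ A B n (sumQ A B n w) = w := by
  funext j
  rcases j with ⟨t | s, a⟩ <;> rfl

end sum

/-- **The Mumford-Tate conjecture for the products with abelian varieties with complex multiplication.** -/
theorem hodge_sum {T J : Type} [Finite T] [Finite J] {E : T → Type} [∀ t, Field (E t)] [∀ t, NumberField (E t)]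
    (A : T → AV) (ι : ∀ t, E t →+* (A t).End) (h : ∀ t, HasAction (A t).L (ι t) 1) (B : J → AV)
    (hB : ∀ (m : J → ℕ) (G : Gal (HIA.prodPow B m)), G.AllTate (hodge (HIA.prodPow B m))) (n : T ⊕ J → ℕ)
    (G : Gal (HIA.prodPow (Sum.elim A B) n)) : G.AllTate (hodge (HIA.prodPow (Sum.elim A B) n)) := by
  obtain ⟨S, v, h1, h2, h3⟩ := cm_data A ι h fun t => n (Sum.inl t)
  have hY := (HIA.prodPow B fun s => n (Sum.inr s)).isAV
  have hX := (HIA.prodPow A fun t => n (Sum.inl t)).isAV
  have hD := dominated hY hX S h1 h2 v h3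
  have hG : IsGaloisLie (HIA.prodPow (Sum.elim A B) n).L G.γ G.c := isGalois G
  refine tate_iso ((HIA.prodPow B fun s => n (Sum.inr s)).prod (HIA.prodPow A fun t => n (Sum.inl t))).isAV
    (HIA.prodPow (Sum.elim A B) n).isAV hG (sumJ A B n) (sumJ_mem A B n) (sumQ A B n) (sumQ_mem A B n)
    (sumQJ A B n) (sumJQ A B n) fun γ' c' h' => tate_prod_cm hY hX hD h' fun γ₁ c₁ h₁ => ?_
  exact hB _ { γ := γ₁
               c := c₁
               lie := h₁.lie
               hodge := h₁.hodge
               divisor := h₁.divisor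
               semisimple := h₁.semisimple
               sen := fun τ => by
                 obtain ⟨e, h1, h2⟩ := h₁.sen τ
                 exact ⟨e, h1, h2⟩ }

/-- **The Tate conjecture for the products of powers of the `A t`, with complex multiplication, and the `B s`**: it
follows from the one for the `B s` and the Hodge conjecture for these products. -/
theorem tate_sum {T J : Type} [Finite T] [Finite J] {E : T → Type} [∀ t, Field (E t)] [∀ t, NumberField (E t)]
    (A : T → AV) (ι : ∀ t, E t →+* (A t).End) (h : ∀ t, HasAction (A t).L (ι t) 1) (B : J → AV)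
    (hAB : HIA.Hodge (Sum.elim A B)) (hB : Tate B) : Tate (Sum.elim A B) := by
  intro n G m i θ hθ
  refine Submodule.span_mono ?_ (hodge_sum A ι h B (fun m G => hodge_of_comb alg_stable (hB m G)) n G m i θ hθ)
  rintro ξ ⟨η, h1, h2⟩
  exact ⟨η, alg_pow hAB n m i η h1, h2⟩

end TCM
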